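import Pool.Agent.helper10.QT.SpecZ

set_option autoImplicit false

namespace Pool.Agent.AT

open Finset Real Pool.Agent.helper85.FC

open Classical in
theorem GQK_pair {α : Type} {k : ℕ} (F : Fin k → Finset α) (i j : Fin k) (hij : i ≠ j) :
    #{f ∈ Fintype.piFinset F | f i = f j} * #(F i) ≤ ∏ l, #(F l) := by
  rw [← Fintype.card_piFinset F, ← Finset.card_product]
  refine Finset.card_le_card_of_injOn (fun x => Function.update x.1 i x.2) ?_ ?_
  · rintro ⟨f, a⟩ hx
    have hx' := Finset.mem_product.1 (Finset.mem_coe.1 hx)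
    have h1 := (Finset.mem_filter.1 hx'.1).1
    refine Finset.mem_coe.2 (Fintype.mem_piFinset.2 fun l => ?_)
    rcases eq_or_ne l i with h | h
    · subst h
      simpa using hx'.2
    · simpa [Function.update_of_ne h] using Fintype.mem_piFinset.1 h1 l
  · rintro ⟨f, a⟩ hx ⟨g, b⟩ hy hxy
    have hx' := Finset.mem_product.1 (Finset.mem_coe.1 hx)
    have hy' := Finset.mem_product.1 (Finset.mem_coe.1 hy)
    have h1 := (Finset.mem_filter.1 hx'.1).2
    have h2 := (Finset.mem_filter.1 hy'.1).2
    simp only at hxy h1 h2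
    have hab : a = b := by
      have := congrFun hxy i
      simpa using this
    have hfg : ∀ l, l ≠ i → f l = g l := fun l hl => by
      have := congrFun hxy l
      simpa [Function.update_of_ne hl] using this
    have hf : f = g := by
      funext l
      rcases eq_or_ne l i with h | h
      · subst h
        rw [h1, h2]
        exact hfg j hij.symm
      · exact hfg l h
    rw [hf, hab]

theorem GQK_coi {α : Type} (k L : ℕ) (F : Fin k → Finset α) (hL : 1 ≤ L) (hF : ∀ i, L ≤ #(F i)) :
    (({f | f ∈ Fintype.piFinset F ∧ ¬ Function.Injective f} : Set (Fin k → α)).ncard : ℝ) ≤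
      (k : ℝ) ^ 2 * ((∏ i, (#(F i) : ℝ)) / L) := by
  classical
  have hset : ({f | f ∈ Fintype.piFinset F ∧ ¬ Function.Injective f} : Set (Fin k → α)) =
      (({f ∈ Fintype.piFinset F | ¬ Function.Injective f} : Finset (Fin k → α)) : Set (Fin k → α)) := by
    ext f
    rw [Finset.mem_coe, Finset.mem_filter]
    exact Iff.rfl
  rw [hset, Set.ncard_coe_finset]
  have hsub : ({f ∈ Fintype.piFinset F | ¬ Function.Injective f} : Finset (Fin k → α)) ⊆
      ((univ : Finset (Fin k × Fin k)).filter (fun x => x.1 ≠ x.2)).biUnion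
        (fun x => {f ∈ Fintype.piFinset F | f x.1 = f x.2}) := by
    intro f hf
    have h1 := Finset.mem_filter.1 hf
    have h2 : ∃ i j, f i = f j ∧ i ≠ j := by
      by_contra hcon
      push Not at hcon
      exact h1.2 fun i j hij => hcon i j hij
    obtain ⟨i, j, hij, hne⟩ := h2
    refine Finset.mem_biUnion.2 ⟨(i, j), Finset.mem_filter.2 ⟨Finset.mem_univ _, hne⟩, ?_⟩
    exact Finset.mem_filter.2 ⟨h1.1, hij⟩
  have hcard : (#{f ∈ Fintype.piFinset F | ¬ Function.Injective f} : ℝ) ≤
      ∑ x ∈ ((univ : Finset (Fin k × Fin k)).filter (fun x => x.1 ≠ x.2)),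
        (#{f ∈ Fintype.piFinset F | f x.1 = f x.2} : ℝ) := by
    have h1 := (Finset.card_le_card hsub).trans Finset.card_biUnion_le
    exact_mod_cast h1
  have hLpos : (0 : ℝ) < L := by exact_mod_cast hL
  have hpair : ∀ x ∈ ((univ : Finset (Fin k × Fin k)).filter (fun x => x.1 ≠ x.2)),
      (#{f ∈ Fintype.piFinset F | f x.1 = f x.2} : ℝ) ≤ (∏ i, (#(F i) : ℝ)) / L := by
    intro x hx
    have hne := (Finset.mem_filter.1 hx).2
    have h1 := GQK_pair F x.1 x.2 hne
    rw [le_div_iff₀ hLpos]
    have h2 : #{f ∈ Fintype.piFinset F | f x.1 = f x.2} * L ≤ ∏ l, #(F l) :=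
      (Nat.mul_le_mul_left _ (hF x.1)).trans h1
    exact_mod_cast h2
  refine hcard.trans ((Finset.sum_le_sum hpair).trans ?_)
  rw [Finset.sum_const, nsmul_eq_mul]
  have h3 : (#((univ : Finset (Fin k × Fin k)).filter (fun x => x.1 ≠ x.2)) : ℝ) ≤ (k : ℝ) ^ 2 := by
    have h4 := Finset.card_filter_le (univ : Finset (Fin k × Fin k)) (fun x => x.1 ≠ x.2)
    have h5 : #(univ : Finset (Fin k × Fin k)) = k ^ 2 := by
      rw [Finset.card_univ, Fintype.card_prod, Fintype.card_fin, sq]
    rw [h5] at h4
    exact_mod_cast h4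
  exact mul_le_mul_of_nonneg_right h3 (by positivity)

theorem GQK (h1 : KSB_stmt) : GQK_stmt := by
  classical
  intro k K hk
  obtain ⟨C, δ, hC, hδ, hδ1, hks⟩ := h1 (max K 1) k (le_max_right _ _)
  refine ⟨C + (k : ℝ) ^ 2, δ, by positivity, hδ, ?_⟩
  intro A P hP F L hL hF hFA
  have hinj := GQK_coi k L F hL hF
  have hset : ({f | f ∈ Fintype.piFinset F ∧ ¬ Function.Injective f} : Set (Fin k → ℚˣ)) =
      (({f ∈ Fintype.piFinset F | ¬ Function.Injective f} : Finset (Fin k → ℚˣ)) : Set (Fin k → ℚˣ)) := by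
    ext f
    rw [Finset.mem_coe, Finset.mem_filter]
    exact Iff.rfl
  rw [hset, Set.ncard_coe_finset] at hinj
  have hprod : 0 ≤ ∏ i, (#(F i) : ℝ) := Finset.prod_nonneg (fun _ _ => by positivity)
  have hLd : (1 : ℝ) / L ≤ (L : ℝ) ^ (-δ) := by
    have hL1 : (1 : ℝ) ≤ L := by exact_mod_cast hL
    rw [one_div, ← Real.rpow_neg_one]
    exact Real.rpow_le_rpow_of_exponent_le hL1 (by linarith)
  have hB' : (#{f ∈ Fintype.piFinset F | ¬ P f ∧ Function.Injective f} : ℝ) ≤
      C * (∏ i, (#(F i) : ℝ)) * (L : ℝ) ^ (-δ) := by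
    by_contra hcon
    rw [not_le] at hcon
    obtain ⟨H, hH1, hH2⟩ := hks ℚˣ F L hL hF _ (Finset.filter_subset _ _) hcon
    have hne : ∀ i, (H i).Nonempty := by
      intro i
      rw [← Finset.card_pos, (hH1 i).2]
      exact lt_of_lt_of_le one_pos (le_max_right K 1)
    have hdisj : ∀ i j, i ≠ j → Disjoint (H i) (H j) := by
      intro i j hij
      rw [Finset.disjoint_left]
      intro z hzi hzj
      choose w hw using hne
      set f : Fin k → ℚˣ := Function.update (Function.update w i z) j z with hf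
      have hfm : f ∈ Fintype.piFinset H := by
        rw [Fintype.mem_piFinset]
        intro l
        rcases eq_or_ne l j with h | h
        · subst h
          rw [hf, Function.update_self]
          exact hzj
        · rw [hf, Function.update_of_ne h]
          rcases eq_or_ne l i with h' | h'
          · subst h'
            rw [Function.update_self]
            exact hzi
          · rw [Function.update_of_ne h']
            exact hw l
      have hfi : f i = z := by
        rw [hf, Function.update_of_ne hij, Function.update_self]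
      have hfj : f j = z := by
        rw [hf, Function.update_self]
      exact hij ((Finset.mem_filter.mp (hH2 hfm)).2.2 (hfi.trans hfj.symm))
    obtain ⟨x, hx, hPx⟩ := hP H (fun i => by rw [(hH1 i).2]; exact le_max_left _ _)
      (fun i x hx => hFA i x ((hH1 i).1 hx)) hdisj
    have hxm : x ∈ Fintype.piFinset H := Fintype.mem_piFinset.mpr hx
    exact (Finset.mem_filter.mp (hH2 hxm)).2.1 hPx
  have hN : (#{f ∈ Fintype.piFinset F | ¬ Function.Injective f} : ℝ) ≤
      (k : ℝ) ^ 2 * (∏ i, (#(F i) : ℝ)) * (L : ℝ) ^ (-δ) := by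
    refine le_trans hinj ?_
    rw [div_eq_mul_one_div, ← mul_assoc]
    exact mul_le_mul_of_nonneg_left hLd (by positivity)
  have hsub : (#{f ∈ Fintype.piFinset F | ¬ P f} : ℝ) ≤
      (#{f ∈ Fintype.piFinset F | ¬ P f ∧ Function.Injective f} : ℝ) +
      (#{f ∈ Fintype.piFinset F | ¬ Function.Injective f} : ℝ) := by
    have h : #{f ∈ Fintype.piFinset F | ¬ P f} ≤
        #{f ∈ Fintype.piFinset F | ¬ P f ∧ Function.Injective f} +
        #{f ∈ Fintype.piFinset F | ¬ Function.Injective f} := by
      refine le_trans (Finset.card_le_card ?_) (Finset.card_union_le _ _)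
      intro f hf
      rw [Finset.mem_union, Finset.mem_filter, Finset.mem_filter]
      rw [Finset.mem_filter] at hf
      by_cases hi : Function.Injective f
      · exact Or.inl ⟨hf.1, hf.2, hi⟩
      · exact Or.inr ⟨hf.1, hi⟩
    exact_mod_cast h
  have htot : (#{f ∈ Fintype.piFinset F | ¬ P f} : ℝ) ≤
      (C + (k : ℝ) ^ 2) * (∏ i, (#(F i) : ℝ)) * (L : ℝ) ^ (-δ) := by
    refine le_trans hsub (le_trans (add_le_add hB' hN) (le_of_eq ?_))
    ring
  refine le_trans (le_of_eq ?_) htot
  norm_cast

end Pool.Agent.AT
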